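import Pool.Agent.helper4.HL.Spec

/-!
# hl:UNQQ: uniqueness modulo `N`, from `UNQ` for `Q N` and the points `Q g_j`
-/

set_option autoImplicit false

open Pool.Agent.helper86.CM Pool.Agent.QS Filter MeasureTheory

open scoped BigOperators ComplexOrder ComplexConjugate Topology

namespace Pool.Agent.HL

theorem UNQQ (hU : UNQ_stmt) : UNQQ_stmt := by
  intro B t hcat Q hQ
  obtain ⟨C, hC, hmain⟩ := hU B t hcat
  have hQ1 : (1 : ℝ) ≤ (Q : ℝ) := by exact_mod_cast hQ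
  have hQ2 : (1 : ℝ) ≤ (Q : ℝ) ^ 2 := one_le_pow₀ hQ1
  refine ⟨C * (Q : ℝ) ^ 2, one_le_mul_of_one_le_of_one_le hC hQ2, ?_⟩
  intro s J r N R hs hJ hR hN hlam g hg hdv j hj
  have hC0 : 0 ≤ C := zero_le_one.trans hC
  have h1 : C * (((Q : ℝ) * R) ^ 2 + 1) ≤ (lam t) ^ s := by
    refine le_trans ?_ hlam
    rw [mul_assoc]
    apply mul_le_mul_of_nonneg_left _ hC0
    have h2 : (Q : ℝ) ^ 2 * (R ^ 2 + 1) = ((Q : ℝ) * R) ^ 2 + (Q : ℝ) ^ 2 := by ring
    rw [h2]
    linarith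
  have h3 : ∀ j < J, ‖Q • g j‖ ≤ (Q : ℝ) * R := by
    intro j hj
    refine (norm_nsmul_le).trans ?_
    exact mul_le_mul_of_nonneg_left (hg j hj) (by positivity)
  have h4 : Dv (Q * N) (∑ j ∈ Finset.range J, site B s (s * J) r j (Q • g j)) := by
    obtain ⟨z, hz⟩ := hdv
    refine ⟨z, ?_⟩
    have h5 : ∑ j ∈ Finset.range J, site B s (s * J) r j (Q • g j) =
        Q • ∑ j ∈ Finset.range J, site B s (s * J) r j (g j) := by
      rw [Finset.smul_sum]
      exact Finset.sum_congr rfl fun j _ => map_nsmul _ _ _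
    rw [h5, hz, ← natCast_zsmul, smul_smul]
    push_cast
    rfl
  have h6 := hmain s J r (Q * N) ((Q : ℝ) * R) hs hJ (by positivity) hN h1
    (fun j => Q • g j) h3 h4 j hj
  have h7 : Q ≠ 0 := by omega
  have h8 : Q • g j = 0 := h6
  exact (smul_eq_zero.mp h8).resolve_left h7

end Pool.Agent.HL
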